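import Mathlib
import Pool.Agent.TTR.Fin

/-!
# A quadratic bound for expansions of graphs built on 2-trees

`D` is a 2-tree on `0, .., m - 1` in construction order: `0` and `1` are adjacent and every
`v ≥ 2` has exactly two smaller neighbours, which are adjacent.  At most one of the two edges from a
vertex `v ≥ 3` to its smaller neighbours lies in a triangle with a larger vertex (so at most one
triangle of `D` has all its three edges in other triangles).  `c` is the 3-colouring of `D`.

`G` is a graph on `Fin k` and `S` a set of its vertices (the core) such that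
* `i` is an embedding of `G[S]` into `D`,
* every vertex `v` outside the core has at most two neighbours among the core and the smaller
  vertices, and if there are two, `x` and `y`, then they are adjacent in `G`, or they are core
  vertices for which `i x`, `i y` have different colours and a common neighbour in `D`.
Then `ex_3(n, G⁺) = O(n ^ 2)`.

Proof: weighted injective homomorphisms of `D` into the hypergraph, in which every new vertex `v`
attached to the edge `y`, `ρ y` satisfies `codeg (ρ y, v) ≤ codeg (ρ y, σ y)`, `σ y` the third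
vertex of the triangle in which the edge was created; the link of every vertex of `D` is then a
degree monotone tree, and two neighbours of a vertex with different colours take each pair of values
with weight at most one.
-/

set_option autoImplicit false

namespace Pool.Agent.Results.MP_c7cb83_co.TwoTrees

/-- Let `D` be a 2-tree in construction order in which at most one triangle has all three edges in
other triangles, `c` its proper 3-colouring, `S` a set of vertices of `G` and `i` an embedding of
`G[S]` in `D`; let every vertex outside `S` have at most two neighbours in `S` or before it, and if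
there are two, let them be adjacent or be vertices of `S` whose images have different colours and a
common neighbour in `D`.  Then `ex_3(n, G⁺) ≤ C n ^ 2`. -/
theorem result (m : ℕ) (hm : 3 ≤ m) (D : SimpleGraph (Fin m))
    (hfirst : ∀ u v : Fin m, (u : ℕ) = 0 → (v : ℕ) = 1 → D.Adj u v)
    (htree : ∀ v : Fin m, 2 ≤ (v : ℕ) → ∃ a b : Fin m, a < v ∧ b < v ∧ D.Adj a b ∧
      ∀ u < v, D.Adj v u ↔ u = a ∨ u = b)
    (hhinge : ∀ v : Fin m, 3 ≤ (v : ℕ) → ∀ a b : Fin m, a < v → b < v → a ≠ b →
      D.Adj v a → D.Adj v b →
      (∀ w, v < w → ¬ (D.Adj w v ∧ D.Adj w a)) ∨ ∀ w, v < w → ¬ (D.Adj w v ∧ D.Adj w b))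
    (c : Fin m → Fin 3) (hcol : ∀ u v, D.Adj u v → c u ≠ c v)
    (k : ℕ) (G : SimpleGraph (Fin k)) (S : Finset (Fin k)) (i : Fin k → Fin m)
    (hinj : ∀ u ∈ S, ∀ v ∈ S, i u = i v → u = v)
    (hcore : ∀ u ∈ S, ∀ v ∈ S, G.Adj u v → D.Adj (i u) (i v))
    (hpair : ∀ v ∉ S, ∀ x y, G.Adj v x → G.Adj v y → (x ∈ S ∨ x < v) → (y ∈ S ∨ y < v) → x ≠ y →
      G.Adj x y ∨ (x ∈ S ∧ y ∈ S ∧ c (i x) ≠ c (i y) ∧ ∃ z, D.Adj z (i x) ∧ D.Adj z (i y)))
    (htwo : ∀ v ∉ S, ∀ x y w, G.Adj v x → G.Adj v y → G.Adj v w → (x ∈ S ∨ x < v) →
      (y ∈ S ∨ y < v) → (w ∈ S ∨ w < v) → x = y ∨ x = w ∨ y = w) :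
    ∃ C : ℝ, ∀ (n : ℕ) (H : Finset (Finset (Fin n))),
      (∀ e ∈ H, e.card = 3) →
      (¬ ∃ f : Fin k → Fin n, ∃ g : Sym2 (Fin k) → Fin n,
          Function.Injective f ∧ Set.InjOn g G.edgeSet ∧
          (∀ e ∈ G.edgeSet, ∀ v : Fin k, g e ≠ f v) ∧
          ∀ u v : Fin k, G.Adj u v → ({f u, f v, g s(u, v)} : Finset (Fin n)) ∈ H) →
      (H.card : ℝ) ≤ C * (n : ℝ) ^ 2 :=
  Pool.Agent.TTR.ttr_main m hm D hfirst htree hhinge c hcol k G S i hinj hcore hpair htwo

end Pool.Agent.Results.MP_c7cb83_co.TwoTrees
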