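import Mathlib
import Pool.Agent.Helper54.W4.Final

/-!
# The expansion of the wheel `W_4` has superquadratic Turan number

There is `δ > 0` such that for infinitely many `n` some 3-uniform hypergraph on `n` vertices with
at least `n ^ (2 + δ)` edges contains no copy of the expansion `G⁺` of any graph `G` containing
the wheel `W_4`.

Construction: vectors with entries in `[0,74]^2`, `3k` blocks, three parts; triples whose blockwise
sum minus `(111,111)` lies in the triangle `{(0,0),(1,0),(0,1)}` (forced by conditions on pairs,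
since `s^2+t^2+st-s-t` is nonnegative and is a sum of functions of pairs); the parts are cut out by
the level of a Gaussian weight in each of three groups of blocks and by a linear hash modulo 3
whose kernel contains no two nonzero vectors with disjoint supports.
-/

set_option autoImplicit false

namespace Pool.Agent.Results.MP_c7cb83_co.WheelFour

open Filter Pool.Agent.Helper54.W4

/-- the wheel with four spokes: hub `0`, rim `1, 2, 3, 4` -/
def W4 : SimpleGraph (Fin 5) where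
  Adj u v := u ≠ v ∧ ¬ (u = 1 ∧ v = 3) ∧ ¬ (u = 3 ∧ v = 1) ∧ ¬ (u = 2 ∧ v = 4) ∧ ¬ (u = 4 ∧ v = 2)
  symm := ⟨fun u v h => ⟨h.1.symm, by tauto, by tauto, by tauto, by tauto⟩⟩
  loopless := ⟨fun u h => h.1 rfl⟩

theorem growth (D Q : ℝ) (hQ : 1 < Q) :
    ∀ᶠ k : ℕ in atTop, D * (k : ℝ) ^ 24 ≤ Q ^ k := by
  have h := tendsto_pow_const_div_const_pow_of_one_lt 24 hQ
  have h2 : Tendsto (fun k : ℕ => |D| * ((k : ℝ) ^ 24 / Q ^ k)) atTop (nhds (|D| * 0)) :=
    h.const_mul _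
  rw [mul_zero] at h2
  filter_upwards [h2.eventually (gt_mem_nhds (zero_lt_one))] with k hk
  have hp : 0 < Q ^ k := pow_pos (by linarith) k
  have h3 : |D| * (k : ℝ) ^ 24 < Q ^ k := by
    rw [← mul_div_assoc, div_lt_one hp] at hk
    exact hk
  have h4 : D * (k : ℝ) ^ 24 ≤ |D| * (k : ℝ) ^ 24 :=
    mul_le_mul_of_nonneg_right (le_abs_self D) (by positivity)
  linarith

theorem main : ∃ δ : ℝ, 0 < δ ∧ ∀ n₀ : ℕ, ∃ n : ℕ, n₀ ≤ n ∧
    ∃ H : Finset (Finset (Fin n)), (∀ e ∈ H, e.card = 3) ∧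
      (∀ (m : ℕ) (G : SimpleGraph (Fin m)), ContainsWheelFour G → ¬ HasExpansion H G) ∧
      (n : ℝ) ^ (2 + δ) ≤ (H.card : ℝ) := by
  set Q : ℝ := ZZ ^ 2 / (5 * VV ^ 4) with hQdef
  have hV4 : 0 < 5 * VV ^ 4 := by have := pow_pos VV_pos 4; linarith
  have hQ : 1 < Q := by
    rw [hQdef, one_lt_div hV4]; exact key_ineq'
  have hQ0 : 0 < Q := by linarith
  set B : ℝ := 3 * 5625 ^ 3 with hB
  have hB1 : 1 < B := by rw [hB]; norm_num
  have hB0 : 0 < B := by linarith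
  have hlogB : 0 < Real.log B := Real.log_pos hB1
  refine ⟨Real.log Q / Real.log B, div_pos (Real.log_pos hQ) hlogB, fun n₀ => ?_⟩
  set δ : ℝ := Real.log Q / Real.log B with hδ
  have hδ0 : 0 < δ := div_pos (Real.log_pos hQ) hlogB
  have hBδ : B ^ δ = Q := by
    rw [Real.rpow_def_of_pos hB0, hδ, mul_div_cancel₀ _ hlogB.ne', Real.exp_log hQ0]
  have e1 := growth (729 * 2400002 ^ 24) Q hQ
  have e2 := (tendsto_pow_atTop_atTop_of_one_lt hQ).eventually_ge_atTop (n₀ : ℝ)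
  obtain ⟨k, ⟨hk1, hk2⟩, hk3⟩ := ((e1.and e2).and (eventually_ge_atTop 1)).exists
  obtain ⟨n, H, h3, hfree, hn, hpos, hineq⟩ := construction k
  have hkr : (1 : ℝ) ≤ k := by exact_mod_cast hk3
  have hpoly : 729 * (288 * k + 1 : ℝ) ^ 18 * (1200000 * k + 1 : ℝ) ^ 6 ≤ Q ^ k := by
    refine le_trans ?_ hk1
    have p1 : (288 * k + 1 : ℝ) ^ 18 ≤ (2400002 * k) ^ 18 :=
      pow_le_pow_left₀ (by positivity) (by linarith) 18
    have p2 : (1200000 * k + 1 : ℝ) ^ 6 ≤ (2400002 * k) ^ 6 :=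
      pow_le_pow_left₀ (by positivity) (by linarith) 6
    calc 729 * (288 * k + 1 : ℝ) ^ 18 * (1200000 * k + 1 : ℝ) ^ 6
        ≤ 729 * (2400002 * k) ^ 18 * (2400002 * k) ^ 6 :=
          mul_le_mul (mul_le_mul_of_nonneg_left p1 (by norm_num)) p2 (by positivity)
            (by positivity)
      _ = 729 * 2400002 ^ 24 * (k : ℝ) ^ 24 := by ring
  -- the main quadratic inequality
  have hsq : ((n : ℝ) ^ 2 * Q ^ k) ^ 2 ≤ (H.card : ℝ) ^ 2 := by
    have hW : 0 < (5 * VV ^ 4) ^ (3 * k) := pow_pos hV4 _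
    have hZQ : (ZZ ^ 2) ^ (3 * k) = Q ^ (3 * k) * (5 * VV ^ 4) ^ (3 * k) := by
      rw [← mul_pow, hQdef, div_mul_cancel₀ _ hV4.ne']
    rw [hZQ] at hineq
    have h1 : (n : ℝ) ^ 4 * Q ^ (3 * k) * (5 * VV ^ 4) ^ (3 * k)
        ≤ (729 * (288 * k + 1 : ℝ) ^ 18 * (1200000 * k + 1 : ℝ) ^ 6 * (H.card : ℝ) ^ 2)
          * (5 * VV ^ 4) ^ (3 * k) := by
      calc (n : ℝ) ^ 4 * Q ^ (3 * k) * (5 * VV ^ 4) ^ (3 * k)
          = (n : ℝ) ^ 4 * (Q ^ (3 * k) * (5 * VV ^ 4) ^ (3 * k)) := by ring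
        _ ≤ _ := hineq
        _ = _ := by rw [mul_pow 5 (VV ^ 4) (3 * k)]; ring
    have h2 := le_of_mul_le_mul_right h1 hW
    have h4 : (n : ℝ) ^ 4 * Q ^ (3 * k) ≤ Q ^ k * (H.card : ℝ) ^ 2 :=
      h2.trans (mul_le_mul_of_nonneg_right hpoly (by positivity))
    have hQk : 0 < Q ^ k := pow_pos hQ0 k
    have h5 : ((n : ℝ) ^ 2 * Q ^ k) ^ 2 * Q ^ k ≤ (H.card : ℝ) ^ 2 * Q ^ k := by
      calc ((n : ℝ) ^ 2 * Q ^ k) ^ 2 * Q ^ k = (n : ℝ) ^ 4 * Q ^ (3 * k) := by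
            rw [show 3 * k = k + k + k by ring, pow_add, pow_add]; ring
        _ ≤ _ := h4
        _ = _ := by ring
    exact le_of_mul_le_mul_right h5 hQk
  have hT : (n : ℝ) ^ 2 * Q ^ k ≤ (H.card : ℝ) :=
    le_of_sq_le_sq hsq (by positivity)
  -- `n` is positive
  obtain ⟨e0, he0⟩ := Finset.card_pos.mp hpos
  have hn3 : 3 ≤ n := by
    have h1 := Finset.card_le_univ e0
    rw [h3 e0 he0, Fintype.card_fin] at h1
    exact h1
  have hnpos : (0 : ℝ) < n := by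
    have : 0 < n := by omega
    exact_mod_cast this
  have hcube : (H.card : ℝ) ≤ (n : ℝ) ^ 3 := by
    have h1 : H ⊆ (Finset.univ : Finset (Fin n)).powersetCard 3 := by
      intro e he
      rw [Finset.mem_powersetCard]
      exact ⟨Finset.subset_univ _, h3 e he⟩
    have h2 := Finset.card_le_card h1
    rw [Finset.card_powersetCard, Finset.card_univ, Fintype.card_fin] at h2
    have h4 : n.choose 3 ≤ n ^ 3 := Nat.choose_le_pow n 3
    exact_mod_cast h2.trans h4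
  have hnQ : Q ^ k ≤ n := by
    have h1 : (n : ℝ) ^ 2 * Q ^ k ≤ (n : ℝ) ^ 2 * n := by
      calc (n : ℝ) ^ 2 * Q ^ k ≤ (H.card : ℝ) := hT
        _ ≤ (n : ℝ) ^ 3 := hcube
        _ = (n : ℝ) ^ 2 * n := by ring
    exact le_of_mul_le_mul_left h1 (by positivity)
  refine ⟨n, ?_, H, h3, hfree, ?_⟩
  · have : (n₀ : ℝ) ≤ n := hk2.trans hnQ
    exact_mod_cast this
  · have hnB : (n : ℝ) ≤ B ^ k := by
      have h1 : (n : ℝ) ≤ 3 * (5625 ^ k) ^ 3 := by exact_mod_cast hn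
      refine h1.trans ?_
      rw [hB, mul_pow, ← pow_mul, ← pow_mul, mul_comm k 3]
      refine mul_le_mul_of_nonneg_right ?_ (by positivity)
      calc (3 : ℝ) = 3 ^ 1 := by norm_num
        _ ≤ 3 ^ k := pow_le_pow_right₀ (by norm_num) hk3
    have hnδ : (n : ℝ) ^ δ ≤ Q ^ k := by
      calc (n : ℝ) ^ δ ≤ (B ^ k) ^ δ := Real.rpow_le_rpow hnpos.le hnB hδ0.le
        _ = (B ^ δ) ^ k := by
          rw [← Real.rpow_natCast, ← Real.rpow_natCast, ← Real.rpow_mul hB0.le,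
            ← Real.rpow_mul hB0.le, mul_comm]
        _ = Q ^ k := by rw [hBδ]
    calc (n : ℝ) ^ (2 + δ) = (n : ℝ) ^ 2 * (n : ℝ) ^ δ := by
          rw [Real.rpow_add hnpos]
          congr 1
          exact_mod_cast Real.rpow_natCast (n : ℝ) 2
      _ ≤ (n : ℝ) ^ 2 * Q ^ k := mul_le_mul_of_nonneg_left hnδ (by positivity)
      _ ≤ _ := hT

instance : DecidableRel W4.Adj := fun u v =>
  inferInstanceAs (Decidable (u ≠ v ∧ ¬ (u = 1 ∧ v = 3) ∧ ¬ (u = 3 ∧ v = 1) ∧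
    ¬ (u = 2 ∧ v = 4) ∧ ¬ (u = 4 ∧ v = 2)))

theorem contains_W4 : ContainsWheelFour W4 := by
  refine ⟨(0 : Fin 5), (1 : Fin 5), (2 : Fin 5), (3 : Fin 5), (4 : Fin 5), ?_⟩
  decide

/-- The Turan number of the expansion of the wheel `W_4` (and of every graph containing `W_4`)
is not `O(n^2)`: it is at least `n ^ (2 + δ)` for infinitely many `n`. -/
theorem result :
    (∃ δ : ℝ, 0 < δ ∧ ∀ n₀ : ℕ, ∃ n : ℕ, n₀ ≤ n ∧
      ∃ H : Finset (Finset (Fin n)), (∀ e ∈ H, e.card = 3) ∧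
        (∀ (m : ℕ) (G : SimpleGraph (Fin m)), ContainsWheelFour G → ¬ HasExpansion H G) ∧
        (n : ℝ) ^ (2 + δ) ≤ (H.card : ℝ)) ∧
    (∀ (m : ℕ) (G : SimpleGraph (Fin m)), ContainsWheelFour G →
      ¬ ∃ C : ℝ, ∀ (n : ℕ) (H : Finset (Finset (Fin n))), (∀ e ∈ H, e.card = 3) →
        ¬ HasExpansion H G → (H.card : ℝ) ≤ C * (n : ℝ) ^ 2) ∧
    ContainsWheelFour W4 := by
  refine ⟨main, ?_, contains_W4⟩
  rintro m G hG ⟨C, hC⟩
  obtain ⟨δ, hδ, hmain⟩ := main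
  -- choose `n₀` with `n₀ ^ δ > C`
  have htend : Tendsto (fun x : ℝ => x ^ δ) atTop atTop := tendsto_rpow_atTop hδ
  have hev := (htend.comp (tendsto_natCast_atTop_atTop (R := ℝ))).eventually_gt_atTop C
  obtain ⟨n₀, hn₀⟩ := eventually_atTop.mp hev
  obtain ⟨n, hn, H, h3, hfree, hcard⟩ := hmain (n₀ + 1)
  have hnpos : (0 : ℝ) < n := by
    have : 0 < n := by omega
    exact_mod_cast this
  have h1 := hC n H h3 (hfree m G hG)
  have h2 : C < (n : ℝ) ^ δ := hn₀ n (by omega)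
  have h4 : (n : ℝ) ^ (2 + δ) = (n : ℝ) ^ 2 * (n : ℝ) ^ δ := by
    rw [Real.rpow_add hnpos]
    congr 1
    exact_mod_cast Real.rpow_natCast (n : ℝ) 2
  have h5 : C * (n : ℝ) ^ 2 < (n : ℝ) ^ 2 * (n : ℝ) ^ δ := by
    rw [mul_comm C]
    exact mul_lt_mul_of_pos_left h2 (by positivity)
  rw [h4] at hcard
  linarith

end Pool.Agent.Results.MP_c7cb83_co.WheelFour
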